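import Pool.Agent.Y989.FR.All
import Pool.Agent.Results.MP_fe58d8_pr.UniformDimension

/-!
# The boundaries of the complementary components of the limits of the exploration path

Critical bond percolation on `δ ℤ²` in a rectangle `D = (-A, B) × (0, H)`, with the counterclockwise
boundary arc from `a = t + i H` to `b = 0` wired and the other one dual-wired. The exploration path
is parametrised by its number of steps: `Rect.curve` is the piecewise linear curve on `[0, 1]` run
at constant speed, and `Rect.time` is the number of steps times `δ ^ (7/4)`; `Rect.law` is the law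
of (curve, time). Weak limits exist along a subsequence of every sequence of meshes.

For every weak limit, almost surely, the union of the boundaries of all the components of the
complement of the trace has Hausdorff dimension exactly `4/3`; the part of it in `D` and in any
neighbourhood of the end point `b = 0` has dimension `4/3` as well, and the corresponding sets of
times (in the natural parametrisation) have dimension exactly `16/21`.

Definitions: `Pool.Agent.H984R4.NP.Model` (`Rect`, `pos`, `clamp`, `pl`, `X`, `Rect.D`, `Rect.dm`,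
`Rect.curve`, `Rect.time`, `Rect.law`), `Pool.Agent.H984R4.NP.Defs` (`Dm`, `Dm.edges`, `Dm.wir`,
`Dm.cfg`, `Dm.walk`, `Dm.len`) and `Pool.Agent.H984R3.Per.Defs` (states, `ae`, `mv`, `rt`, `nxt`,
`orb`).

The upper bounds follow the starting files for the half-plane (`SpecialPoints`). The lower bound is
project FR (`Pool.Agent.Y989.FR`): a vertex of the path which is accessible from the other side at
lattice level (three arms, probability of order `m ^ (-2/3)`) is accessible through a path which
keeps a distance from the cluster that is polynomial in the distance from the vertex, because narrow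
gates cost an additional arm (exploration of the interface up to the first gate, whose winding
number shows that fresh closed edges must surround it); this macroscopic thickness passes to the
limit. Steps were formalised by helper32, 48, 70, 108, 141, 153, 155, 220, 306, 363, 405, 448, 474,
484, 492, 496, 547, 681, 768, 811, 839, 914, 994.
-/

set_option autoImplicit false

namespace Pool.Agent.Results.MP_fe58d8_pr.FrontierDimension

open H984N MeasureTheory Filter Topology
open scoped ENNReal

/-- The union of the boundaries of all the components of the complement of the trace of `f`. -/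
def boundaries (f : C(unitInterval, ℂ)) : Set ℂ :=
  ⋃ x : ℂ, frontier (connectedComponentIn (Set.range f)ᶜ x)

theorem times_dim {f : C(unitInterval, ℂ)} (hu : ∀ E : Set unitInterval,
    dimH (f '' E) = 7 / 4 * dimH E) {S : Set ℂ} (hS : S ⊆ Set.range f) (h : dimH S = 4 / 3) :
    dimH {s : unitInterval | f s ∈ S} = 16 / 21 := by
  have e : f '' {s : unitInterval | f s ∈ S} = S := by
    have h1 : f '' {s : unitInterval | f s ∈ S} = Set.range f ∩ S :=
      Set.image_preimage_eq_range_inter
    rw [h1]
    exact Set.inter_eq_right.2 hS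
  have h4 := hu {s : unitInterval | f s ∈ S}
  rw [e, h] at h4
  have a1 : (4 / 7 : ℝ≥0∞) = ENNReal.ofReal (4 / 7) := by
    rw [ENNReal.ofReal_div_of_pos (by norm_num)]; norm_num
  have a2 : (7 / 4 : ℝ≥0∞) = ENNReal.ofReal (7 / 4) := by
    rw [ENNReal.ofReal_div_of_pos (by norm_num)]; norm_num
  have a3 : (4 / 3 : ℝ≥0∞) = ENNReal.ofReal (4 / 3) := by
    rw [ENNReal.ofReal_div_of_pos (by norm_num)]; norm_num
  have a4 : (16 / 21 : ℝ≥0∞) = ENNReal.ofReal (16 / 21) := by
    rw [ENNReal.ofReal_div_of_pos (by norm_num)]; norm_num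
  have e2 : (4 / 7 : ℝ≥0∞) * (7 / 4) = 1 := by
    rw [a1, a2, ← ENNReal.ofReal_mul (by norm_num)]
    norm_num
  calc dimH {s : unitInterval | f s ∈ S}
      = 4 / 7 * (7 / 4 * dimH {s : unitInterval | f s ∈ S}) := by
        rw [← mul_assoc, e2, one_mul]
    _ = 4 / 7 * (4 / 3) := by rw [← h4]
    _ = 16 / 21 := by
        rw [a1, a3, a4, ← ENNReal.ofReal_mul (by norm_num)]
        norm_num

theorem result (R : Rect) :
    (∀ δ : ℕ → ℝ, (∀ i, 0 < δ i) → Tendsto δ atTop (𝓝 0) →
      ∃ φ : ℕ → ℕ, StrictMono φ ∧ ∃ μ : ProbabilityMeasure X,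
        Tendsto (fun i => R.law (δ (φ i))) atTop (𝓝 μ)) ∧
    (∀ δ : ℕ → ℝ, (∀ i, 0 < δ i) → Tendsto δ atTop (𝓝 0) → ∀ μ : ProbabilityMeasure X,
      Tendsto (fun i => R.law (δ i)) atTop (𝓝 μ) →
      ∀ᵐ p ∂(μ : Measure X),
        dimH (boundaries p.1) = 4 / 3 ∧
        dimH {s : unitInterval | p.1 s ∈ boundaries p.1} = 16 / 21 ∧
        ∀ ρ : ℝ, 0 < ρ →
          dimH (boundaries p.1 ∩ (R.D ∩ Metric.ball 0 ρ)) = 4 / 3 ∧
          dimH {s : unitInterval | p.1 s ∈ boundaries p.1 ∩ (R.D ∩ Metric.ball 0 ρ)} = 16 / 21) := by
  obtain ⟨h1, h2⟩ := UniformDimension.result R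
  refine ⟨h1, fun δ hδ hlim μ hμ => ?_⟩
  obtain ⟨h3, -⟩ := Pool.Agent.Y989.FR.main R hδ hlim hμ
  filter_upwards [h3, h2 δ hδ hlim μ hμ, Pool.Agent.Y989.FR.Up.nonconst R hδ hlim hμ] with
    p hp hu hn
  have hsub : boundaries p.1 ⊆ Set.range p.1 := by
    intro w hw
    obtain ⟨i, hi⟩ := Set.mem_iUnion.1 (Pool.Agent.TH990.FU.frontiers_acc hn hw)
    exact hi.1
  exact ⟨hp.1, times_dim hu hsub hp.1, fun ρ hρ => ⟨hp.2 ρ hρ,
    times_dim hu (Set.inter_subset_left.trans hsub) (hp.2 ρ hρ)⟩⟩

end Pool.Agent.Results.MP_fe58d8_pr.FrontierDimension
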