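import Pool.Agent.Results.MP_fe58d8_pr.NaturalCurve
import Pool.Agent.Y994.MD.MeshB
import Pool.Agent.Y994.MC.Haus

/-!
# Natural time and Minkowski content of the limits of the exploration path on `ℤ²`

Critical bond percolation on `δ ℤ²` in a rectangle; the exploration path `R.curve δ` in its natural
parametrisation (constant speed on `[0, 1]`) with its natural time `R.time δ` (the number of steps
times `δ ^ (7/4)`). There are universal constants `c, C > 0` such that for every rectangle and every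
weak limit `(γ, τ)` of the laws, almost surely, for all small radii `ρ`, the natural time
`τ (t - s)` of EVERY arc `γ [s, t]` of natural time at least `C ρ ^ (7/4) log (1/ρ)` is comparable
with its `7/4`-dimensional Minkowski content at the radius `ρ`:
`c τ (t - s) ρ ^ (1/4) ≤ area of the ρ-neighbourhood of γ [s, t] ≤ C τ (t - s) ρ ^ (1/4)`.
Moreover the `7/4`-dimensional Hausdorff measure of every arc `γ [s, t]` is at most `C τ (t - s)`.

Definitions: `Pool.Agent.H984R4.NP.Model` (`Rect`, `pos`, `clamp`, `pl`, `X`, `Rect.dm`,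
`Rect.curve`, `Rect.time`, `Rect.law`), `Pool.Agent.H984R4.NP.Defs` (`Dm`, `Dm.edges`, `Dm.wir`,
`Dm.cfg`, `Dm.walk`, `Dm.len`) and `Pool.Agent.H984R3.Per.Defs` (states, `ae`, `mv`, `rt`, `nxt`,
`orb`).

Boundary blocks: helper985, helper655, helper991 (library files used here).
-/

namespace Pool.Agent.Results.MP_fe58d8_pr.ArcContent

open H984N MeasureTheory Filter Topology

theorem result : ∃ c C : ℝ, 0 < c ∧ 0 < C ∧ ∀ R : Rect,
    (∀ δ : ℕ → ℝ, (∀ i, 0 < δ i) → Tendsto δ atTop (𝓝 0) →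
      ∃ φ : ℕ → ℕ, StrictMono φ ∧ ∃ μ : ProbabilityMeasure X,
        Tendsto (fun i => R.law (δ (φ i))) atTop (𝓝 μ)) ∧
    (∀ δ : ℕ → ℝ, (∀ i, 0 < δ i) → Tendsto δ atTop (𝓝 0) → ∀ μ : ProbabilityMeasure X,
      Tendsto (fun i => R.law (δ i)) atTop (𝓝 μ) →
      ∀ᵐ p ∂(μ : Measure X), 0 < p.2 ∧
        (∀ᶠ ρ : ℝ in 𝓝[>] 0, ∀ s t : unitInterval, s ≤ t →
          C * ρ ^ (7/4 : ℝ) * Real.log (1 / ρ) ≤ p.2 * ((t : ℝ) - s) →
            c * (p.2 * ((t : ℝ) - s)) * ρ ^ (1/4 : ℝ) ≤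
              (volume (Metric.thickening ρ (p.1 '' Set.Icc s t))).toReal ∧
            (volume (Metric.thickening ρ (p.1 '' Set.Icc s t))).toReal ≤
              C * (p.2 * ((t : ℝ) - s)) * ρ ^ (1/4 : ℝ)) ∧
        ∀ s t : unitInterval, s ≤ t →
          Measure.hausdorffMeasure (7/4 : ℝ) (p.1 '' Set.Icc s t) ≤
            ENNReal.ofReal (C * (p.2 * ((t : ℝ) - s)))) := by
  obtain ⟨⟨c, hc, hL⟩, ⟨C, hC, hU⟩, -⟩ := NaturalCurve.inputs
  obtain ⟨K, hK1, hmesh⟩ := Y994.MD.meshB hc hC hL hU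
  have hK : 0 < K := by linarith
  refine ⟨1 / (8 * K), 8 * (968 * K), by positivity, by positivity, fun R => ?_⟩
  obtain ⟨-, -, hsub, hlim0⟩ := NaturalCurve.result R
  refine ⟨hsub, fun δ hδ hlim μ hμ => ?_⟩
  obtain ⟨B, hB, hB2⟩ := hmesh R
  filter_upwards [hlim0 δ hδ hlim μ hμ, Y994.MD.lim_aeB hK hB hB2 hδ hlim hμ] with p hp1 hp2
  have h1 := Y994.MD.all_two hK1 (Y994.MD.all_gen hK hp1.1 hp2)
  refine ⟨hp1.1, ?_, fun s t hst => ?_⟩
  · have hev : ∀ᶠ ρ : ℝ in 𝓝[>] 0, 0 < ρ ∧ ρ < 1 :=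
      Filter.Eventually.and self_mem_nhdsWithin (nhdsWithin_le_nhds (gt_mem_nhds one_pos))
    filter_upwards [h1, hev] with ρ hρ hρ1 s t hst hT
    obtain ⟨hρ0, hρ1⟩ := hρ1
    have hst' : (s:ℝ) ≤ t := hst
    have hL0 : 0 ≤ Real.log (1 / ρ) := Real.log_nonneg (by rw [le_div_iff₀ hρ0]; linarith)
    have h4 : 0 < ρ ^ (1/4 : ℝ) := Real.rpow_pos_of_pos hρ0 _
    have h7 : 0 < ρ ^ (7/4 : ℝ) := Real.rpow_pos_of_pos hρ0 _
    obtain ⟨g1, g2⟩ := hρ s t hst (by
      refine le_trans ?_ hT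
      have : 0 ≤ 968 * K * ρ ^ (7/4 : ℝ) * Real.log (1 / ρ) := by positivity
      linarith)
    refine ⟨g1, g2.trans ?_⟩
    have h6 : 0 ≤ p.2 * ((t : ℝ) - s) := mul_nonneg hp1.1.le (by linarith)
    refine mul_le_mul_of_nonneg_right (mul_le_mul_of_nonneg_right ?_ h6) h4.le
    linarith
  · exact Y994.MC.haus_all (by positivity) hp1.1 (Y994.MD.all_34 hp1.1 h1) s t hst

end Pool.Agent.Results.MP_fe58d8_pr.ArcContent
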