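import Pool.Agent.Y985.ME.Top
import Pool.Agent.Y995.FS.LimS2

/-!
# Exact modulus of continuity of the exploration path in the natural parametrisation

Critical bond percolation on `δ ℤ²` in a rectangle `D = (-A, B) × (0, H)`, with the counterclockwise
boundary arc from `a = t + i H` to `b = 0` wired and the other one dual-wired. The exploration path
is parametrised by its number of steps: `Rect.curve` is the piecewise linear curve on `[0, 1]` run
at constant speed, and `Rect.time` is the number of steps times `δ ^ (7/4)`; `Rect.law` is the law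
of (curve, time). Weak limits exist along a subsequence of every sequence of meshes. For every weak
limit, almost surely, the modulus of continuity of the curve in its natural time is of the exact
order `h ^ (4/7) (log (1/h)) ^ (3/7)`: the upper bound holds for the whole curve, the lower bound
holds on every subarc, and the constants depend on the rectangle only.

Definitions: `Pool.Agent.H984R4.NP.Model` (`Rect`, `pos`, `clamp`, `pl`, `X`, `Rect.dm`,
`Rect.curve`, `Rect.time`, `Rect.law`), `Pool.Agent.H984R4.NP.Defs` (`Dm`, `Dm.edges`, `Dm.wir`,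
`Dm.cfg`, `Dm.walk`, `Dm.len`) and `Pool.Agent.H984R3.Per.Defs` (states, `ae`, `mv`, `rt`, `nxt`,
`orb`).

The upper bound was formalised by helper985 with helper317, helper337, helper655, helper674,
helper884 and helper991.
-/

set_option autoImplicit false

namespace Pool.Agent.Results.MP_fe58d8_pr.ExactModulus

open H984N MeasureTheory Filter Topology

theorem result (R : Rect) :
    (∀ δ : ℕ → ℝ, (∀ i, 0 < δ i) → Tendsto δ atTop (𝓝 0) →
      ∃ φ : ℕ → ℕ, StrictMono φ ∧ ∃ μ : ProbabilityMeasure X,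
        Tendsto (fun i => R.law (δ (φ i))) atTop (𝓝 μ)) ∧
    ∃ c C : ℝ, 0 < c ∧ 0 < C ∧
      ∀ δ : ℕ → ℝ, (∀ i, 0 < δ i) → Tendsto δ atTop (𝓝 0) → ∀ μ : ProbabilityMeasure X,
        Tendsto (fun i => R.law (δ i)) atTop (𝓝 μ) →
        ∀ᵐ p ∂(μ : Measure X), 0 < p.2 ∧
          ∀ a b : unitInterval, a < b → ∃ h0 : ℝ, 0 < h0 ∧ ∀ h : ℝ, 0 < h → h < h0 →
            (∃ s t : unitInterval, a ≤ s ∧ s ≤ t ∧ t ≤ b ∧ ((t : ℝ) - s) * p.2 ≤ h ∧
              c * (h ^ (4/7 : ℝ) * Real.log (1 / h) ^ (3/7 : ℝ)) ≤ dist (p.1 s) (p.1 t)) ∧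
            (∀ s t : unitInterval, |(s : ℝ) - t| * p.2 ≤ h →
              dist (p.1 s) (p.1 t) ≤ C * (h ^ (4/7 : ℝ) * Real.log (1 / h) ^ (3/7 : ℝ))) := by
  obtain ⟨⟨c, hc, hL⟩, ⟨C, hC, hU⟩, C2, hC2, hA⟩ := Pool.Agent.Y985.ME.inputs
  obtain ⟨-, h2, h3⟩ := final_of hc hC hL hU hC2 hA R
  obtain ⟨c1, hc1, hlow⟩ := Pool.Agent.Y995.FS.mod_low hc hC hL hU hC2 hA R
  obtain ⟨C1, hC1, hup⟩ := Pool.Agent.Y985.ME.mod_up R
  refine ⟨h2, c1, C1, hc1, hC1, fun δ hδ hlim μ hμ => ?_⟩
  filter_upwards [h3 δ hδ hlim μ hμ, hlow δ hδ hlim μ hμ, hup δ hδ hlim μ hμ] with p g1 g2 g3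
  refine ⟨g1.1, fun a b hab => ?_⟩
  obtain ⟨x, hx, k1⟩ := g2 a b hab
  obtain ⟨y, hy, k2⟩ := g3
  refine ⟨min x y, lt_min hx hy, fun h hh hlt => ⟨?_, ?_⟩⟩
  · exact k1 h hh (lt_of_lt_of_le hlt (min_le_left _ _))
  · exact k2 h hh (lt_of_lt_of_le hlt (min_le_right _ _))

end Pool.Agent.Results.MP_fe58d8_pr.ExactModulus
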