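import Pool.Agent.Y985.ME.Top
import Pool.Agent.Y995.FS.LimS2

/-!
# The maximal time spent by the exploration path in discs of radius `r`

Critical bond percolation on `δ ℤ²` in a rectangle `D = (-A, B) × (0, H)`, with the counterclockwise
boundary arc from `a = t + i H` to `b = 0` wired and the other one dual-wired. The exploration path
is parametrised by its number of steps: `Rect.curve` is the piecewise linear curve on `[0, 1]` run
at constant speed, and `Rect.time` is the number of steps times `δ ^ (7/4)`; `Rect.law` is the law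
of (curve, time). Weak limits exist along a subsequence of every sequence of meshes. For every weak
limit, almost surely, the maximum over all discs of radius `r` of the natural time spent in the disc
is of the exact order `r ^ (7/4) (log (1/r)) ^ (1/8)`: the upper bound holds for the whole curve,
the lower bound holds for every subarc, and the constants depend on the rectangle only.

Definitions: `Pool.Agent.H984R4.NP.Model` (`Rect`, `pos`, `clamp`, `pl`, `X`, `Rect.dm`,
`Rect.curve`, `Rect.time`, `Rect.law`), `Pool.Agent.H984R4.NP.Defs` (`Dm`, `Dm.edges`, `Dm.wir`,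
`Dm.cfg`, `Dm.walk`, `Dm.len`) and `Pool.Agent.H984R3.Per.Defs` (states, `ae`, `mv`, `rt`, `nxt`,
`orb`).

The upper bound was formalised by helper985 with helper337 and helper674.
-/

set_option autoImplicit false

namespace Pool.Agent.Results.MP_fe58d8_pr.ExactOccupation

open H984N MeasureTheory Filter Topology

theorem result (R : Rect) :
    (∀ δ : ℕ → ℝ, (∀ i, 0 < δ i) → Tendsto δ atTop (𝓝 0) →
      ∃ φ : ℕ → ℕ, StrictMono φ ∧ ∃ μ : ProbabilityMeasure X,
        Tendsto (fun i => R.law (δ (φ i))) atTop (𝓝 μ)) ∧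
    ∃ c C : ℝ, 0 < c ∧ 0 < C ∧
      ∀ δ : ℕ → ℝ, (∀ i, 0 < δ i) → Tendsto δ atTop (𝓝 0) → ∀ μ : ProbabilityMeasure X,
        Tendsto (fun i => R.law (δ i)) atTop (𝓝 μ) →
        ∀ᵐ p ∂(μ : Measure X), 0 < p.2 ∧
          ∀ a b : unitInterval, a < b → ∃ r0 : ℝ, 0 < r0 ∧ ∀ r : ℝ, 0 < r → r < r0 →
            (∃ z : ℂ, c * (r ^ (7/4 : ℝ) * Real.log (1 / r) ^ (1/8 : ℝ)) ≤
              p.2 * (volume {s : unitInterval | (a ≤ s ∧ s ≤ b) ∧ dist (p.1 s) z ≤ r}).toReal) ∧
            (∀ z : ℂ, p.2 * (volume {s : unitInterval | dist (p.1 s) z ≤ r}).toReal ≤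
              C * (r ^ (7/4 : ℝ) * Real.log (1 / r) ^ (1/8 : ℝ))) := by
  obtain ⟨⟨c, hc, hL⟩, ⟨C, hC, hU⟩, C2, hC2, hA⟩ := Pool.Agent.Y985.ME.inputs
  obtain ⟨-, h2, h3⟩ := final_of hc hC hL hU hC2 hA R
  obtain ⟨c1, hc1, hlow⟩ := Pool.Agent.Y995.FS.occ_low hc hC hL hU hC2 hA R
  obtain ⟨C1, hC1, hup⟩ := Pool.Agent.Y985.ME.occ_up R
  refine ⟨h2, c1, C1, hc1, hC1, fun δ hδ hlim μ hμ => ?_⟩
  filter_upwards [h3 δ hδ hlim μ hμ, hlow δ hδ hlim μ hμ, hup δ hδ hlim μ hμ] with p g1 g2 g3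
  refine ⟨g1.1, fun a b hab => ?_⟩
  obtain ⟨x, hx, k1⟩ := g2 a b hab
  obtain ⟨y, hy, k2⟩ := g3
  refine ⟨min x y, lt_min hx hy, fun r hr hlt => ⟨?_, ?_⟩⟩
  · exact k1 r hr (lt_of_lt_of_le hlt (min_le_left _ _))
  · exact k2 r hr (lt_of_lt_of_le hlt (min_le_right _ _))

end Pool.Agent.Results.MP_fe58d8_pr.ExactOccupation
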